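import Mathlib

/-!
Module D1 for MP_38e422_an: most sign matrices have operator norm at most `12 * sqrt p`.
-/

namespace Pool.Agent.Helper64.SignNorm

open Finset

/-- sign of a Boolean -/
noncomputable def sg (b : Bool) : ℝ := if b then 1 else -1

/-- A `1/2`-net of the unit ball with at most `5 ^ p` points. -/
theorem exists_net (p : ℕ) : ∃ N : Finset (EuclideanSpace ℝ (Fin p)), N.card ≤ 5 ^ p ∧
    (∀ c ∈ N, ‖c‖ ≤ 1) ∧ ∀ u : EuclideanSpace ℝ (Fin p), ‖u‖ ≤ 1 → ∃ c ∈ N, ‖u - c‖ ≤ 1/2 := by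
  classical
  -- maximal separated set in the ball of radius two
  let P : ℕ → Prop := fun n => ∃ s : Finset (EuclideanSpace ℝ (Fin p)), s.card = n ∧
    (∀ c ∈ s, ‖c‖ ≤ 2) ∧ ∀ c ∈ s, ∀ d ∈ s, c ≠ d → 1 ≤ ‖c - d‖
  have hP : ∀ n, P n → n ≤ 5 ^ p := by
    rintro n ⟨s, rfl, h1, h2⟩
    have := Besicovitch.card_le_of_separated s h1 h2
    simpa using this
  have hP0 : P 0 := ⟨∅, by simp, by simp, by simp⟩
  obtain ⟨n, hn, hmax⟩ : ∃ n, P n ∧ ∀ m, P m → m ≤ n := by
    refine ⟨Nat.findGreatest P (5 ^ p), ?_, ?_⟩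
    · exact Nat.findGreatest_spec (P := P) (Nat.zero_le _) hP0
    · intro m hm
      exact Nat.le_findGreatest (hP m hm) hm
  obtain ⟨s, hs, h1, h2⟩ := hn
  refine ⟨s.image (fun c => (1/2 : ℝ) • c), ?_, ?_, ?_⟩
  · calc _ ≤ s.card := Finset.card_image_le
      _ = n := hs
      _ ≤ _ := hP n ⟨s, hs, h1, h2⟩
  · intro c hc
    obtain ⟨d, hd, rfl⟩ := Finset.mem_image.mp hc
    rw [norm_smul]
    have := h1 d hd
    norm_num
    linarith
  · intro u hu
    by_contra hcon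
    push Not at hcon
    have hnot : (2 : ℝ) • u ∉ s := by
      intro hmem
      have := hcon ((1/2 : ℝ) • ((2 : ℝ) • u)) (Finset.mem_image_of_mem _ hmem)
      simp [smul_smul] at this
      norm_num at this
    have hcard : P (n + 1) := by
      refine ⟨insert ((2 : ℝ) • u) s, by rw [Finset.card_insert_of_notMem hnot, hs], ?_, ?_⟩
      · intro c hc
        rcases Finset.mem_insert.mp hc with rfl | hc
        · rw [norm_smul]; norm_num; linarith
        · exact h1 c hc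
      · have key : ∀ c ∈ s, 1 ≤ ‖(2 : ℝ) • u - c‖ := by
          intro c hc
          have := hcon ((1/2 : ℝ) • c) (Finset.mem_image_of_mem _ hc)
          have h3 : (2 : ℝ) • u - c = (2 : ℝ) • (u - (1/2 : ℝ) • c) := by
            rw [smul_sub, smul_smul]; norm_num
          rw [h3, norm_smul]
          norm_num
          linarith
        intro c hc d hd hcd
        rcases Finset.mem_insert.mp hc with rfl | hc
        · rcases Finset.mem_insert.mp hd with rfl | hd
          · exact absurd rfl hcd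
          · exact key d hd
        · rcases Finset.mem_insert.mp hd with rfl | hd
          · rw [norm_sub_rev]; exact key c hc
          · exact h2 c hc d hd hcd
    have := hmax _ hcard
    omega

theorem net_bound {p : ℕ} (A : EuclideanSpace ℝ (Fin p) →L[ℝ] EuclideanSpace ℝ (Fin p))
    (N : Finset (EuclideanSpace ℝ (Fin p))) (t : ℝ) (ht : 0 ≤ t)
    (hN : ∀ u : EuclideanSpace ℝ (Fin p), ‖u‖ ≤ 1 → ∃ c ∈ N, ‖u - c‖ ≤ 1/2)
    (h : ∀ c ∈ N, ∀ d ∈ N, inner ℝ (A c) d ≤ t) : ‖A‖ ≤ 4 * t := by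
  have h1 : ∀ c ∈ N, ‖A c‖ ≤ 2 * t := by
    intro c hc
    by_cases hx : A c = 0
    · rw [hx]; simp; linarith
    · have hpos : 0 < ‖A c‖ := norm_pos_iff.mpr hx
      set u : EuclideanSpace ℝ (Fin p) := (‖A c‖)⁻¹ • A c with hu
      have hun : ‖u‖ = 1 := by
        rw [hu, norm_smul, norm_inv, norm_norm, inv_mul_cancel₀ hpos.ne']
      obtain ⟨d, hd, hd2⟩ := hN u hun.le
      have h3 : inner ℝ (A c) u = ‖A c‖ := by
        rw [hu, inner_smul_right, real_inner_self_eq_norm_sq]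
        field_simp
      have h4 : inner ℝ (A c) (u - d) ≤ ‖A c‖ * (1/2) :=
        (real_inner_le_norm _ _).trans (mul_le_mul_of_nonneg_left hd2 hpos.le)
      rw [inner_sub_right, h3] at h4
      have := h c hc d hd
      linarith
  have h2 : ‖A‖ ≤ 2 * t + ‖A‖ / 2 := by
    refine A.opNorm_le_of_unit_norm (by positivity) ?_
    intro u hu
    obtain ⟨c, hc, hc2⟩ := hN u hu.le
    have : A u = A c + A (u - c) := by rw [← map_add]; congr 1; abel
    rw [this]
    calc _ ≤ ‖A c‖ + ‖A (u - c)‖ := norm_add_le _ _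
      _ ≤ 2 * t + ‖A‖ * (1/2) := add_le_add (h1 c hc)
          ((A.le_opNorm _).trans (mul_le_mul_of_nonneg_left hc2 (norm_nonneg _)))
      _ = _ := by ring
  linarith

theorem sum_exp (p : ℕ) (lam : ℝ) (c d : Fin p → ℝ) :
    ∑ w : Fin p → Fin p → Bool, Real.exp (lam * ∑ i, ∑ j, c i * sg (w i j) * d j)
      = ∏ i, ∏ j, (2 * Real.cosh (lam * (c i * d j))) := by
  have h1 : ∀ w : Fin p → Fin p → Bool,
      Real.exp (lam * ∑ i, ∑ j, c i * sg (w i j) * d j)
        = ∏ i, ∏ j, Real.exp (lam * (c i * sg (w i j) * d j)) := by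
    intro w
    rw [Finset.mul_sum, Real.exp_sum]
    refine Finset.prod_congr rfl fun i _ => ?_
    rw [Finset.mul_sum, Real.exp_sum]
  simp_rw [h1]
  have h2 := (Finset.prod_univ_sum (fun _ : Fin p => (Finset.univ : Finset (Fin p → Bool)))
    (fun i r => ∏ j, Real.exp (lam * (c i * sg (r j) * d j))))
  rw [Fintype.piFinset_univ] at h2
  rw [← h2]
  refine Finset.prod_congr rfl fun i _ => ?_
  have h3 := (Finset.prod_univ_sum (fun _ : Fin p => (Finset.univ : Finset Bool))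
    (fun j b => Real.exp (lam * (c i * sg b * d j))))
  rw [Fintype.piFinset_univ] at h3
  rw [← h3]
  refine Finset.prod_congr rfl fun j _ => ?_
  rw [Real.cosh_eq]
  simp [sg]
  ring_nf

theorem sum_exp_le (p : ℕ) (lam : ℝ) (c d : Fin p → ℝ) (hc : ∑ i, (c i)^2 ≤ 1)
    (hd : ∑ i, (d i)^2 ≤ 1) :
    ∑ w : Fin p → Fin p → Bool, Real.exp (lam * ∑ i, ∑ j, c i * sg (w i j) * d j)
      ≤ 2 ^ (p * p) * Real.exp (lam ^ 2 / 2) := by
  rw [sum_exp]
  calc ∏ i, ∏ j, (2 * Real.cosh (lam * (c i * d j)))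
      ≤ ∏ i, ∏ j, (2 * Real.exp ((lam * (c i * d j)) ^ 2 / 2)) := by
        refine Finset.prod_le_prod (fun i _ => Finset.prod_nonneg fun j _ => ?_)
          (fun i _ => Finset.prod_le_prod (fun j _ => ?_) fun j _ => ?_)
        · have := (Real.cosh_pos (lam * (c i * d j))).le; positivity
        · have := (Real.cosh_pos (lam * (c i * d j))).le; positivity
        · exact mul_le_mul_of_nonneg_left (Real.cosh_le_exp_half_sq _) (by norm_num)
    _ = 2 ^ (p * p) * Real.exp (∑ i, ∑ j, (lam * (c i * d j)) ^ 2 / 2) := by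
        simp_rw [Finset.prod_mul_distrib, Real.exp_sum]
        simp [← pow_mul]
    _ ≤ 2 ^ (p * p) * Real.exp (lam ^ 2 / 2) := by
        refine mul_le_mul_of_nonneg_left (Real.exp_le_exp.mpr ?_) (by positivity)
        have : ∑ i, ∑ j, (lam * (c i * d j)) ^ 2 / 2
            = lam ^ 2 / 2 * ((∑ i, (c i)^2) * ∑ j, (d j)^2) := by
          rw [Finset.sum_mul_sum, Finset.mul_sum]
          refine Finset.sum_congr rfl fun i _ => ?_
          rw [Finset.mul_sum]
          refine Finset.sum_congr rfl fun j _ => ?_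
          ring
        rw [this]
        have h1 : (∑ i, (c i)^2) * ∑ j, (d j)^2 ≤ 1 * 1 :=
          mul_le_mul hc hd (Finset.sum_nonneg fun _ _ => by positivity) (by norm_num)
        calc _ ≤ lam ^ 2 / 2 * (1 * 1) := mul_le_mul_of_nonneg_left h1 (by positivity)
          _ = _ := by ring

theorem count_le (p : ℕ) (c d : Fin p → ℝ) (hc : ∑ i, (c i)^2 ≤ 1)
    (hd : ∑ i, (d i)^2 ≤ 1) (t : ℝ) (ht : 0 ≤ t) :
    ((Finset.univ.filter (fun w : Fin p → Fin p → Bool =>
      t < ∑ i, ∑ j, c i * sg (w i j) * d j)).card : ℝ) ≤ 2 ^ (p * p) * Real.exp (-(t ^ 2) / 2) := by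
  classical
  have h := sum_exp_le p t c d hc hd
  have h2 : ((Finset.univ.filter (fun w : Fin p → Fin p → Bool =>
      t < ∑ i, ∑ j, c i * sg (w i j) * d j)).card : ℝ) * Real.exp (t * t)
      ≤ ∑ w : Fin p → Fin p → Bool, Real.exp (t * ∑ i, ∑ j, c i * sg (w i j) * d j) := by
    rw [← nsmul_eq_mul, ← Finset.sum_const]
    refine le_trans (Finset.sum_le_sum (g := fun w : Fin p → Fin p → Bool =>
      Real.exp (t * ∑ i, ∑ j, c i * sg (w i j) * d j)) ?_) ?_
    · intro w hw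
      rw [Finset.mem_filter] at hw
      exact Real.exp_le_exp.mpr (mul_le_mul_of_nonneg_left hw.2.le ht)
    · exact Finset.sum_le_sum_of_subset_of_nonneg (Finset.filter_subset _ _)
        (fun _ _ _ => (Real.exp_pos _).le)
  have h3 := h2.trans h
  rw [← le_div_iff₀ (Real.exp_pos _)] at h3
  refine h3.trans (le_of_eq ?_)
  rw [mul_div_assoc, ← Real.exp_sub]
  congr 2
  ring

theorem numeric {p : ℕ} (hp : 2 ≤ p) : 4 * ((5:ℝ) ^ p * 5 ^ p * Real.exp (-(9 * p) / 2)) ≤ 1 := by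
  have he : (2.7182818283 : ℝ) < Real.exp 1 := Real.exp_one_gt_d9
  have h1 : Real.exp (-(9 * p) / 2) = (Real.exp (-(9/2))) ^ p := by
    rw [← Real.exp_nat_mul]; congr 1; ring
  have h2 : (90 : ℝ) ≤ Real.exp (9/2) := by
    have h3 : Real.exp (9/2) ^ 2 = Real.exp 1 ^ 9 := by
      rw [← Real.exp_nat_mul, ← Real.exp_nat_mul]; norm_num
    have h4 : (90:ℝ)^2 ≤ Real.exp (9/2) ^ 2 := by
      rw [h3]
      calc (90:ℝ)^2 ≤ 2.7182818283 ^ 9 := by norm_num
        _ ≤ _ := pow_le_pow_left₀ (by norm_num) he.le 9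
    exact le_of_sq_le_sq h4 (Real.exp_pos _).le |> fun h => h
  have h3 : Real.exp (-(9/2)) ≤ 1/90 := by
    rw [Real.exp_neg, ← one_div]
    exact one_div_le_one_div_of_le (by norm_num) h2
  rw [h1, ← mul_pow, ← mul_pow]
  have h4 : (5 * 5 * Real.exp (-(9/2))) ≤ 25/90 := by linarith
  have h5 : (5 * 5 * Real.exp (-(9/2))) ^ p ≤ (25/90) ^ p :=
    pow_le_pow_left₀ (by positivity) h4 p
  have h6 : ((25:ℝ)/90) ^ p ≤ (25/90)^2 := pow_le_pow_of_le_one (by norm_num) (by norm_num) hp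
  calc _ ≤ 4 * (25/90)^2 := by linarith
    _ ≤ (1:ℝ) := by norm_num


/-- bilinear bound for one sign matrix -/
theorem bilinear_of_net {p : ℕ} (w : Fin p → Fin p → Bool)
    (N : Finset (EuclideanSpace ℝ (Fin p))) (t : ℝ) (ht : 0 ≤ t)
    (hN : ∀ u : EuclideanSpace ℝ (Fin p), ‖u‖ ≤ 1 → ∃ c ∈ N, ‖u - c‖ ≤ 1/2)
    (h : ∀ c ∈ N, ∀ d ∈ N, ∑ i, ∑ j, c i * sg (w i j) * d j ≤ t) (u v : Fin p → ℝ) :
    (∑ i, ∑ j, u i * sg (w i j) * v j) ^ 2 ≤ 16 * t ^ 2 * (∑ i, (u i) ^ 2) * ∑ j, (v j) ^ 2 := by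
  classical
  let M : Matrix (Fin p) (Fin p) ℝ := Matrix.of fun j i => sg (w i j)
  let A : EuclideanSpace ℝ (Fin p) →L[ℝ] EuclideanSpace ℝ (Fin p) :=
    LinearMap.toContinuousLinearMap (Matrix.toEuclideanLin M)
  have hA : ∀ x y : EuclideanSpace ℝ (Fin p),
      inner ℝ (A x) y = ∑ i, ∑ j, x i * sg (w i j) * y j := by
    intro x y
    rw [Finset.sum_comm]
    simp only [A, M, PiLp.inner_apply, LinearMap.coe_toContinuousLinearMap',
      Matrix.toLpLin_apply, Matrix.mulVec, dotProduct]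
    refine Finset.sum_congr rfl fun j _ => ?_
    simp only [RCLike.inner_apply, conj_trivial, Matrix.of_apply]
    rw [Finset.mul_sum]
    refine Finset.sum_congr rfl fun i _ => ?_
    ring
  have hb := net_bound A N t ht hN (by
    intro c hc d hd
    rw [hA]
    exact h c hc d hd)
  let U : EuclideanSpace ℝ (Fin p) := WithLp.toLp 2 u
  let V : EuclideanSpace ℝ (Fin p) := WithLp.toLp 2 v
  have h1 : (∑ i, ∑ j, u i * sg (w i j) * v j) = inner ℝ (A U) V := by
    rw [hA]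
  have h2 : |inner ℝ (A U) V| ≤ (4 * t) * ‖U‖ * ‖V‖ := by
    refine (abs_real_inner_le_norm _ _).trans ?_
    refine mul_le_mul_of_nonneg_right ?_ (norm_nonneg _)
    exact (A.le_opNorm _).trans (mul_le_mul_of_nonneg_right hb (norm_nonneg _))
  have hU : ‖U‖ ^ 2 = ∑ i, (u i) ^ 2 := by
    rw [EuclideanSpace.norm_sq_eq]; simp [U]
  have hV : ‖V‖ ^ 2 = ∑ i, (v i) ^ 2 := by
    rw [EuclideanSpace.norm_sq_eq]; simp [V]
  rw [h1, ← sq_abs]
  calc |inner ℝ (A U) V| ^ 2 ≤ ((4 * t) * ‖U‖ * ‖V‖) ^ 2 :=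
        pow_le_pow_left₀ (abs_nonneg _) h2 2
    _ = 16 * t ^ 2 * ‖U‖ ^ 2 * ‖V‖ ^ 2 := by ring
    _ = _ := by rw [hU, hV]

open Classical in
/-- At most a quarter of the sign matrices violate the bilinear bound with constant `144`. -/
theorem sign_norm (p : ℕ) (hp : 2 ≤ p) :
    4 * (Finset.univ.filter (fun w : Fin p → Fin p → Bool =>
      ¬ ∀ u v : Fin p → ℝ, (∑ i, ∑ j, u i * sg (w i j) * v j) ^ 2
        ≤ 144 * p * (∑ i, (u i) ^ 2) * ∑ j, (v j) ^ 2)).card ≤ 2 ^ (p * p) := by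
  obtain ⟨N, hN1, hN2, hN3⟩ := exists_net p
  set t : ℝ := 3 * √(p : ℝ) with ht
  have ht0 : 0 ≤ t := by positivity
  have ht2 : t ^ 2 = 9 * p := by
    rw [ht, mul_pow, Real.sq_sqrt (Nat.cast_nonneg p)]; norm_num
  have hsub : (Finset.univ.filter (fun w : Fin p → Fin p → Bool =>
      ¬ ∀ u v : Fin p → ℝ, (∑ i, ∑ j, u i * sg (w i j) * v j) ^ 2
        ≤ 144 * p * (∑ i, (u i) ^ 2) * ∑ j, (v j) ^ 2))
      ⊆ (N ×ˢ N).biUnion (fun cd => Finset.univ.filter (fun w : Fin p → Fin p → Bool =>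
        t < ∑ i, ∑ j, cd.1 i * sg (w i j) * cd.2 j)) := by
    intro w hw
    rw [Finset.mem_filter] at hw
    by_contra hcon
    apply hw.2
    intro u v
    have := bilinear_of_net w N t ht0 hN3 (by
      intro c hc d hd
      by_contra hlt
      push Not at hlt
      apply hcon
      rw [Finset.mem_biUnion]
      exact ⟨(c, d), Finset.mem_product.mpr ⟨hc, hd⟩,
        Finset.mem_filter.mpr ⟨Finset.mem_univ _, hlt⟩⟩) u v
    rw [ht2] at this
    calc _ ≤ _ := this
      _ = _ := by ring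
  have hnorm : ∀ c ∈ N, ∑ i, (c i) ^ 2 ≤ 1 := by
    intro c hc
    have h1 := hN2 c hc
    have h2 := EuclideanSpace.norm_sq_eq c
    have h3 : ‖c‖ ^ 2 ≤ 1 := by
      have := pow_le_pow_left₀ (norm_nonneg c) h1 2
      simpa using this
    rw [h2] at h3
    simpa using h3
  have hcard : ((Finset.univ.filter (fun w : Fin p → Fin p → Bool =>
      ¬ ∀ u v : Fin p → ℝ, (∑ i, ∑ j, u i * sg (w i j) * v j) ^ 2
        ≤ 144 * p * (∑ i, (u i) ^ 2) * ∑ j, (v j) ^ 2)).card : ℝ)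
      ≤ (5:ℝ) ^ p * 5 ^ p * (2 ^ (p * p) * Real.exp (-(9 * p) / 2)) := by
    calc _ ≤ (((N ×ˢ N).biUnion (fun cd => Finset.univ.filter
          (fun w : Fin p → Fin p → Bool =>
            t < ∑ i, ∑ j, cd.1 i * sg (w i j) * cd.2 j))).card : ℝ) := by
          exact_mod_cast Finset.card_le_card hsub
      _ ≤ ∑ cd ∈ N ×ˢ N, ((Finset.univ.filter (fun w : Fin p → Fin p → Bool =>
            t < ∑ i, ∑ j, cd.1 i * sg (w i j) * cd.2 j)).card : ℝ) := by
          exact_mod_cast Finset.card_biUnion_le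
      _ ≤ ∑ _cd ∈ N ×ˢ N, (2 ^ (p * p) * Real.exp (-(9 * p) / 2)) := by
          refine Finset.sum_le_sum fun cd hcd => ?_
          rw [Finset.mem_product] at hcd
          have := count_le p (fun i => cd.1 i) (fun i => cd.2 i) (hnorm _ hcd.1)
            (hnorm _ hcd.2) t ht0
          rw [ht2] at this
          exact this
      _ = ((N.card : ℝ) * N.card) * (2 ^ (p * p) * Real.exp (-(9 * p) / 2)) := by
          rw [Finset.sum_const, Finset.card_product, nsmul_eq_mul]; push_cast; ring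
      _ ≤ _ := by
          refine mul_le_mul_of_nonneg_right ?_ (by positivity)
          have : (N.card : ℝ) ≤ 5 ^ p := by exact_mod_cast hN1
          exact mul_le_mul this this (by positivity) (by positivity)
  have hfin : (4 * ((Finset.univ.filter (fun w : Fin p → Fin p → Bool =>
      ¬ ∀ u v : Fin p → ℝ, (∑ i, ∑ j, u i * sg (w i j) * v j) ^ 2
        ≤ 144 * p * (∑ i, (u i) ^ 2) * ∑ j, (v j) ^ 2)).card : ℝ)) ≤ 2 ^ (p * p) := by
    have hn := numeric hp
    have h2 : (0:ℝ) < 2 ^ (p * p) := by positivity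
    calc _ ≤ 4 * ((5:ℝ) ^ p * 5 ^ p * (2 ^ (p * p) * Real.exp (-(9 * p) / 2))) := by linarith
      _ = 2 ^ (p * p) * (4 * ((5:ℝ) ^ p * 5 ^ p * Real.exp (-(9 * p) / 2))) := by ring
      _ ≤ 2 ^ (p * p) * 1 := mul_le_mul_of_nonneg_left hn h2.le
      _ = _ := by ring
  exact_mod_cast hfin

open Classical in
/-- The same with the sign written as an `if`. -/
theorem sign_norm' (p : ℕ) (hp : 2 ≤ p) :
    4 * (Finset.univ.filter (fun w : Fin p → Fin p → Bool =>
      ¬ ∀ u v : Fin p → ℝ, (∑ i, ∑ j, u i * (if w i j then (1:ℝ) else -1) * v j) ^ 2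
        ≤ 144 * p * (∑ i, (u i) ^ 2) * ∑ j, (v j) ^ 2)).card ≤ 2 ^ (p * p) := by
  have := sign_norm p hp
  convert this using 4
  simp only [sg]

end Pool.Agent.Helper64.SignNorm
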